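import Pool.Agent.H550R2.Cl.FptK

set_option autoImplicit false
set_option linter.unusedSectionVars false

/-! Random adaptive algorithms with symmetric semidefinite programs of order `f(k) n^(o(k))` have
no advantage over random guessing for the gap version of `k`-clique. -/

namespace Pool.Agent.Results.MP_678664_lc.AdaptiveSymmetricSDP

open Pool.Agent.H550R2.Cl Pool.Agent.H550R2.Lift Filter

/-- (1) For every `ε > 0` there is `C` such that for all `k, b ≥ C` there are two graphs on
`n = k 2 ^ b` vertices, divided into `k` blocks of `2 ^ b` vertices, `G₀` with a clique of `k`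
vertices and `G₁` with clique number at most `ε k`, with the following properties. For every set
`M` of at most `k / C` blocks there is a translation `y` of the blocks in `M` such that for all
translations `γ` of the blocks every semidefinite program of order at most `2 ^ (k b / C)` that is
symmetric under all permutations of the vertices inside the blocks not in `M` accepts both or none
of `G₀` translated by `γ` and `G₁` translated by `γ + y`. Hence every random adaptive algorithm
which runs any number of programs of order at most `2 ^ (k b / C)` that are symmetric in all but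
the marked blocks, at most `k / C` of them on each path, accepts random translates of `G₀` and of
`G₁` with the same probability.
(2) Hence for no `f`, `g` with `g k / k → 0` and no `ε > 0` do random adaptive algorithms with
programs of order at most `f k * n ^ g k` and at most `g k` marks distinguish the graphs of clique
number at least `k` from those of clique number at most `ε k`, for any threshold of the
acceptance probability. -/
theorem result :
    (∀ ε : ℝ, 0 < ε → ∃ C : ℕ, 0 < C ∧ ∀ k b : ℕ, C ≤ k → C ≤ b →
      ∃ G₀ G₁ : SimpleGraph (Fin k × (Fin b → ZMod 2)), k ≤ G₀.cliqueNum ∧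
        (G₁.cliqueNum : ℝ) ≤ ε * k ∧
        (∀ M : Finset (Fin k), M.card ≤ k / C → ∃ y : Fin k × Fin b → ZMod 2,
          (∀ x, x.1 ∉ M → y x = 0) ∧ ∀ (γ : Fin k × Fin b → ZMod 2) (D : Type) [Fintype D]
            [DecidableEq D] (P : SDP (Sym2 (Fin k × (Fin b → ZMod 2))) D), SymK M P →
            Fintype.card D ≤ 2 ^ (k * b / C) →
            (P.Acc (ind (G₀.comap (trk γ)).edgeSet) ↔
              P.Acc (ind (G₁.comap (trk (γ + y))).edgeSet))) ∧
        ∀ R : RAlgK k b, (∀ ω, (R.alg ω).Ok (2 ^ (k * b / C)) (k / C) ∅) →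
          ∑ γ : Fin k × Fin b → ZMod 2, R.acc (G₀.comap (trk γ)) =
            ∑ γ : Fin k × Fin b → ZMod 2, R.acc (G₁.comap (trk γ))) ∧
    (∀ ε : ℝ, 0 < ε → ∀ (f : ℕ → ℕ) (g : ℕ → ℝ),
      Tendsto (fun k : ℕ => g k / k) atTop (nhds 0) → ∃ k b : ℕ, 0 < k ∧
      ∀ (N d : ℕ), (N : ℝ) ≤ f k * ((k * 2 ^ b : ℕ) : ℝ) ^ g k → (d : ℝ) ≤ g k →
        ∀ R : RAlgK k b, (∀ ω, (R.alg ω).Ok N d ∅) →
        (∃ G H : SimpleGraph (Fin k × (Fin b → ZMod 2)), k ≤ G.cliqueNum ∧
          (H.cliqueNum : ℝ) ≤ ε * k ∧ R.acc G ≤ R.acc H) ∧
        (∃ G H : SimpleGraph (Fin k × (Fin b → ZMod 2)), k ≤ G.cliqueNum ∧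
          (H.cliqueNum : ℝ) ≤ ε * k ∧ R.acc H ≤ R.acc G)) :=
  ⟨algK_lower, algK_fpt⟩

end Pool.Agent.Results.MP_678664_lc.AdaptiveSymmetricSDP
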