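import Pool.Agent.H575R2.NNRank
import Pool.Agent.H575R2.Farkas

set_option autoImplicit false

open Finset

namespace Pool.Agent.Results.MP_678664_lc.LPGapLowerBound

open Classical in
/-- The number of edges of the graph `G` with both ends in the vertex set `K`
(half the number of ordered adjacent pairs). -/
noncomputable def edgesIn {n : ℕ} (G : SimpleGraph (Fin n)) (K : Finset (Fin n)) : ℝ :=
  (∑ a ∈ K, ∑ b ∈ K, if G.Adj a b then (1 : ℝ) else 0) / 2

/-- The polyhedron in `ℝ^d` cut out by the `s` inequalities `A x ≤ b` and the `t`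
equations `A' x = b'`. -/
def polyhedron {d s t : ℕ} (A : Fin s → Fin d → ℝ) (b : Fin s → ℝ)
    (A' : Fin t → Fin d → ℝ) (b' : Fin t → ℝ) : Set (Fin d → ℝ) :=
  {x | (∀ i, ∑ j, A i j * x j ≤ b i) ∧ ∀ i, ∑ j, A' i j * x j = b' i}

/-- A linear programming formulation, of size `s` (number of inequalities) and with gap `ε`, of
the `k`-clique problem on graphs with vertex set `{0, ..., n-1}`.  It consists of one polyhedron
(the same for all graphs), of a feasible point for every `k`-set `K` of vertices, and of an affine
objective function for every graph `G`, such that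

* at the point of a `k`-set `K` the objective function of `G` is the number of edges of `G`
  inside `K` (so the optimum is at least `k(k-1)/2` if `G` contains a `k`-clique);
* if `G` is `(k-1)`-colourable (in particular `G` has no `k`-clique), then the objective function
  of `G` is at most `k(k-1)/2 - ε` on the whole polyhedron.

The number `d` of variables and the number `t` of equations are not counted. -/
structure LPFormulation (k n s : ℕ) (ε : ℝ) where
  /-- number of variables -/
  d : ℕ
  /-- number of equations -/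
  t : ℕ
  A : Fin s → Fin d → ℝ
  b : Fin s → ℝ
  A' : Fin t → Fin d → ℝ
  b' : Fin t → ℝ
  /-- the feasible point of a `k`-set of vertices -/
  point : Finset (Fin n) → Fin d → ℝ
  /-- linear part of the objective function of a graph -/
  obj : SimpleGraph (Fin n) → Fin d → ℝ
  /-- constant part of the objective function of a graph -/
  cst : SimpleGraph (Fin n) → ℝ
  feasible : ∀ K : Finset (Fin n), K.card = k → point K ∈ polyhedron A b A' b'
  value : ∀ (G : SimpleGraph (Fin n)) (K : Finset (Fin n)), K.card = k →
    ∑ j, obj G j * point K j + cst G = edgesIn G K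
  sound : ∀ G : SimpleGraph (Fin n), G.Colorable (k - 1) → ∀ x ∈ polyhedron A b A' b',
    ∑ j, obj G j * x j + cst G ≤ (k.choose 2 : ℝ) - ε

/-- linear functional with given coefficients -/
noncomputable def lin {d : ℕ} (a : Fin d → ℝ) : (Fin d → ℝ) →ₗ[ℝ] ℝ :=
  ∑ j, a j • LinearMap.proj j

theorem lin_apply {d : ℕ} (a x : Fin d → ℝ) : lin a x = ∑ j, a j * x j := by
  unfold lin
  simp [LinearMap.sum_apply]

theorem sum_pairs {k q : ℕ} (c : Fin k → Fin q) :
    ∑ i : Fin k, ∑ j : Fin k, (if c i = c j then (1 : ℝ) else 0) = k + 2 * H575R2.mono c := by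
  rw [← Fintype.sum_prod_type']
  have h1 : (univ : Finset (Fin k × Fin k)) =
      (univ.filter fun p : Fin k × Fin k => p.1 < p.2) ∪
      ((univ.filter fun p : Fin k × Fin k => p.1 = p.2) ∪
       (univ.filter fun p : Fin k × Fin k => p.2 < p.1)) := by
    ext p
    simp only [mem_univ, mem_union, mem_filter, true_and, true_iff]
    exact lt_trichotomy p.1 p.2
  rw [h1, Finset.sum_union, Finset.sum_union]
  · have h2 : ∑ p ∈ univ.filter (fun p : Fin k × Fin k => p.1 = p.2),
        (if c p.1 = c p.2 then (1 : ℝ) else 0) = k := by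
      rw [Finset.sum_congr rfl (g := fun _ => (1 : ℝ))]
      · rw [Finset.sum_const, nsmul_eq_mul, mul_one]
        have : (univ.filter fun p : Fin k × Fin k => p.1 = p.2).card = k := by
          have e : (univ.filter fun p : Fin k × Fin k => p.1 = p.2) =
              (univ : Finset (Fin k)).image fun i => (i, i) := by
            ext p
            simp only [mem_filter, mem_univ, true_and, mem_image]
            constructor
            · intro h
              exact ⟨p.1, by rw [Prod.ext_iff]; exact ⟨rfl, h⟩⟩
            · rintro ⟨i, rfl⟩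
              rfl
          rw [e, Finset.card_image_of_injective]
          · simp
          · intro i j h
            exact (Prod.ext_iff.mp h).1
        rw [this]
      · intro p hp
        have := (mem_filter.mp hp).2
        rw [this, if_pos rfl]
    have h3 : ∑ p ∈ univ.filter (fun p : Fin k × Fin k => p.2 < p.1),
        (if c p.1 = c p.2 then (1 : ℝ) else 0) = H575R2.mono c := by
      unfold H575R2.mono
      refine Finset.sum_bij' (fun p _ => (p.2, p.1)) (fun p _ => (p.2, p.1)) ?_ ?_ ?_ ?_ ?_
      · intro p hp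
        simpa using (mem_filter.mp hp).2
      · intro p hp
        simpa using (mem_filter.mp hp).2
      · intro p _; rfl
      · intro p _; rfl
      · intro p _
        simp only [eq_comm]
    rw [h2, h3]
    unfold H575R2.mono
    ring
  · rw [Finset.disjoint_left]
    intro p hp hp'
    have h1 := (mem_filter.mp hp).2
    have h2 := (mem_filter.mp hp').2
    rw [h1] at h2
    exact lt_irrefl _ h2
  · rw [Finset.disjoint_left]
    intro p hp hp'
    have h1 := (mem_filter.mp hp).2
    rcases mem_union.mp hp' with h | h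
    · have h2 := (mem_filter.mp h).2
      rw [h2] at h1
      exact lt_irrefl _ h1
    · have h2 := (mem_filter.mp h).2
      exact lt_asymm h1 h2

/-- the complete multipartite graph of a colouring -/
def multi {n q : ℕ} (χ : Fin n → Fin q) : SimpleGraph (Fin n) :=
  (⊤ : SimpleGraph (Fin q)).comap χ

theorem multi_adj {n q : ℕ} (χ : Fin n → Fin q) (a b : Fin n) :
    (multi χ).Adj a b ↔ χ a ≠ χ b := by
  unfold multi
  rw [SimpleGraph.comap_adj, SimpleGraph.top_adj]

theorem multi_colorable {n q : ℕ} (χ : Fin n → Fin q) : (multi χ).Colorable q :=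
  ⟨SimpleGraph.Coloring.mk χ fun {a b} h => (multi_adj χ a b).mp h⟩

theorem edgesIn_multi {k n q : ℕ} (χ : Fin n → Fin q) (f : Fin k → Fin n)
    (hf : Function.Injective f) :
    edgesIn (multi χ) (univ.image f) = (k.choose 2 : ℝ) - H575R2.mono (χ ∘ f) := by
  classical
  unfold edgesIn
  rw [Finset.sum_image (fun a _ b _ h => hf h)]
  have h1 : ∀ i : Fin k, ∑ b ∈ univ.image f, (if (multi χ).Adj (f i) b then (1 : ℝ) else 0) =
      ∑ j : Fin k, (1 - if (χ ∘ f) i = (χ ∘ f) j then (1 : ℝ) else 0) := by
    intro i
    rw [Finset.sum_image (fun a _ b _ h => hf h)]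
    refine Finset.sum_congr rfl fun j _ => ?_
    by_cases h : (χ ∘ f) i = (χ ∘ f) j
    · have h' : ¬ (multi χ).Adj (f i) (f j) := by
        rw [multi_adj]; exact fun h' => h' h
      rw [if_neg h', if_pos h]
      ring
    · have h' : (multi χ).Adj (f i) (f j) := (multi_adj χ _ _).mpr h
      rw [if_pos h', if_neg h]
      ring
  have h2 : ∀ i : Fin k, (∑ b ∈ univ.image f, @ite ℝ ((multi χ).Adj (f i) b)
      (Classical.propDecidable _) (1 : ℝ) 0) =
      ∑ j : Fin k, (1 - if (χ ∘ f) i = (χ ∘ f) j then (1 : ℝ) else 0) := by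
    intro i
    rw [← h1 i]
  rw [Finset.sum_congr rfl (fun i _ => h2 i)]
  simp only [Finset.sum_sub_distrib]
  rw [sum_pairs]
  simp only [Finset.sum_const, card_univ, Fintype.card_fin, nsmul_eq_mul, mul_one]
  rw [Nat.cast_choose_two]
  ring

theorem card_inj (k n : ℕ) :
    (univ.filter fun f : Fin k → Fin n => Function.Injective f).card = n.descFactorial k := by
  rw [← Fintype.card_subtype]
  rw [Fintype.card_congr (Equiv.subtypeInjectiveEquivEmbedding (Fin k) (Fin n))]
  rw [Fintype.card_embedding_eq, Fintype.card_fin, Fintype.card_fin]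

/-- **LP formulations of the `k`-clique problem need `Ω_{k,ε}(n^k)` inequalities.** -/
theorem result (k : ℕ) (hk : 3 ≤ k) :
    ∃ c : ℝ, 0 < c ∧ ∀ ε : ℝ, 0 < ε → ε ≤ 1 → ∀ n s : ℕ, k ≤ n →
      Nonempty (LPFormulation k n s ε) → c * ε ^ (2 * k + 1) * (n : ℝ) ^ k ≤ s + 1 := by
  obtain ⟨c, hc, hmain⟩ := H575R2.nnrank_bound k hk
  have hkR : (0 : ℝ) < k := by exact_mod_cast (by omega : 0 < k)
  refine ⟨c / (k : ℝ) ^ k, by positivity, ?_⟩
  intro ε hε hε1 n s hkn ⟨L⟩
  -- a feasible point
  obtain ⟨K0, -, hK0⟩ := Finset.exists_subset_card_eq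
    (s := (univ : Finset (Fin n))) (n := k) (by simpa using hkn)
  have hx0 := L.feasible K0 hK0
  -- all the constraints as inequalities
  let ℓ : Fin (s + (L.t + L.t)) → ((Fin L.d → ℝ) →ₗ[ℝ] ℝ) :=
    Fin.append (fun i => lin (L.A i)) (Fin.append (fun i => lin (L.A' i)) (fun i => - lin (L.A' i)))
  let bb : Fin (s + (L.t + L.t)) → ℝ := Fin.append L.b (Fin.append L.b' (fun i => - L.b' i))
  have hiff : ∀ x, (∀ i, ℓ i x ≤ bb i) ↔ x ∈ polyhedron L.A L.b L.A' L.b' := by
    intro x
    constructor
    · intro h
      refine ⟨fun i => ?_, fun i => ?_⟩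
      · have := h (Fin.castAdd _ i)
        simp only [ℓ, bb, Fin.append_left, lin_apply] at this
        exact this
      · have h1 := h (Fin.natAdd s (Fin.castAdd _ i))
        have h2 := h (Fin.natAdd s (Fin.natAdd L.t i))
        simp only [ℓ, bb, Fin.append_left, Fin.append_right, lin_apply, LinearMap.neg_apply] at h1 h2
        linarith
    · rintro ⟨h1, h2⟩ i
      refine Fin.addCases (fun i => ?_) (fun i => ?_) i
      · simp only [ℓ, bb, Fin.append_left, lin_apply]
        exact h1 i
      · refine Fin.addCases (fun i => ?_) (fun i => ?_) i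
        · simp only [ℓ, bb, Fin.append_left, Fin.append_right, lin_apply]
          exact (h2 i).le
        · simp only [ℓ, bb, Fin.append_right, lin_apply, LinearMap.neg_apply]
          rw [h2 i]
  -- Farkas multipliers for every colouring
  have hfark : ∀ χ : Fin n → Fin (k - 1), ∃ (w0 : ℝ) (w : Fin s → ℝ), 0 ≤ w0 ∧ (∀ i, 0 ≤ w i) ∧
      ∀ K : Finset (Fin n), K.card = k →
        (k.choose 2 : ℝ) - ε - edgesIn (multi χ) K =
          w0 + ∑ i, w i * (L.b i - ∑ j, L.A i j * L.point K j) := by
    intro χ
    obtain ⟨w0, w, hw0, hw, hfw⟩ := H575R2.farkas_affine (s + (L.t + L.t)) ℓ bb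
      (lin (L.obj (multi χ))) ((k.choose 2 : ℝ) - ε - L.cst (multi χ)) (L.point K0)
      ((hiff _).mpr hx0) (by
        intro x hx
        have := L.sound (multi χ) (multi_colorable χ) x ((hiff x).mp hx)
        rw [lin_apply]
        linarith)
    refine ⟨w0, fun i => w (Fin.castAdd _ i), hw0, fun i => hw _, fun K hK => ?_⟩
    have h1 := hfw (L.point K)
    have h2 := L.value (multi χ) K hK
    have h3 := (L.feasible K hK).2
    rw [lin_apply, Fin.sum_univ_add, Fin.sum_univ_add] at h1
    simp only [ℓ, bb, Fin.append_left, Fin.append_right, lin_apply, LinearMap.neg_apply, h3,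
      sub_self, mul_zero, Finset.sum_const_zero, add_zero] at h1
    rw [← h2]
    have e : ∀ x : Fin L.t, w (Fin.natAdd s (Fin.natAdd L.t x)) * (-L.b' x - -L.b' x) = 0 := by
      intro x; ring
    linarith
  choose w0 w hw0 hw hfac using hfark
  have hbound := hmain ε hε hε1 (Fin n) (s + 1)
    (fun l χ => Fin.cases (w0 χ) (fun i => w χ i) l)
    (fun l f => Fin.cases (1 : ℝ)
      (fun i => L.b i - ∑ j, L.A i j * L.point (univ.image f) j) l)
    (by
      intro l χ
      refine Fin.cases ?_ (fun i => ?_) l
      · exact hw0 χ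
      · exact hw χ i)
    (by
      intro l f hf
      refine Fin.cases ?_ (fun i => ?_) l
      · exact zero_le_one
      · have hcardf : (univ.image f).card = k := by
          rw [Finset.card_image_of_injective _ hf]; simp
        have := (L.feasible _ hcardf).1 i
        simp only [Fin.cases_succ]
        linarith)
    (by
      intro χ f hf
      have hcardf : (univ.image f).card = k := by
        rw [Finset.card_image_of_injective _ hf]; simp
      have h1 := hfac χ (univ.image f) hcardf
      rw [edgesIn_multi χ f hf] at h1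
      rw [Fin.sum_univ_succ]
      simp only [Fin.cases_zero, Fin.cases_succ]
      linarith)
  rw [card_inj] at hbound
  -- n.descFactorial k ≥ (n / k)^k
  have hdesc : ((n : ℝ) / k) ^ k ≤ (n.descFactorial k : ℝ) := by
    have h1 := Nat.pow_sub_le_descFactorial n k
    have h2 : (((n + 1 - k : ℕ) : ℝ)) ^ k ≤ (n.descFactorial k : ℝ) := by exact_mod_cast h1
    refine le_trans ?_ h2
    apply pow_le_pow_left₀ (by positivity)
    rw [div_le_iff₀ hkR]
    have h3 : n ≤ (n + 1 - k) * k := by
      obtain ⟨m, rfl⟩ : ∃ m, n = k + m := ⟨n - k, by omega⟩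
      have : k + m + 1 - k = m + 1 := by omega
      rw [this]
      nlinarith
    exact_mod_cast h3
  calc c / (k : ℝ) ^ k * ε ^ (2 * k + 1) * (n : ℝ) ^ k =
      c * ε ^ (2 * k + 1) * ((n : ℝ) / k) ^ k := by
        rw [div_pow]; ring
    _ ≤ c * ε ^ (2 * k + 1) * (n.descFactorial k : ℝ) :=
        mul_le_mul_of_nonneg_left hdesc (by positivity)
    _ ≤ ((s + 1 : ℕ) : ℝ) := hbound
    _ = (s : ℝ) + 1 := by push_cast; ring

end Pool.Agent.Results.MP_678664_lc.LPGapLowerBound
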