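import Pool.Agent.H526R2.LS.Upper

set_option autoImplicit false

/-! # Locally symmetric networks for the `k`-clique problem

A network reads the adjacency variables of a graph on the vertex set `V`. Its other gates compute
arbitrary functions of the multiset of their inputs, with values in an arbitrary set `K` and
unbounded fan-in. It is symmetric on a block of `5 ^ (k - 2)` vertices if every even permutation of
the block (fixing all the other vertices) extends to an automorphism of the network.

Lower bound: a random network with error probability at most `ε` for the `k`-clique problem, all of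
whose members are symmetric on the same `r` disjoint blocks, satisfies
`E [s (2 log_5 s + 1) ^ k] ≥ (1 - 2 ε) (r + 1 - k) ^ k`, where `s` is the number of gates.

Upper bound: there are networks of AND and OR gates for the `k`-clique problem, symmetric under all
permutations of the `n` vertices, with at most `n ^ k + n ^ 2 + 1` gates. -/

namespace Pool.Agent.Results.MP_678664_lc.LocalSymmetry

open Pool.Agent.H526R2.LS

open Classical in
theorem result (k : ℕ) (hk : 3 ≤ k) :
    (∀ (V K : Type) [Fintype V] (enc : Bool → K) (dec : K → Bool) (r : ℕ)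
      (ι : Fin r × Fin (5 ^ (k - 2)) ↪ V) (Ω : Type) [Fintype Ω] (p : Ω → ℝ),
      (∀ ω, 0 ≤ p ω) → ∑ ω, p ω = 1 →
      ∀ (Gt : Ω → Type) [∀ ω, Fintype (Gt ω)] (N : ∀ ω, Net (Sym2 V) K Unit (Gt ω)),
      (∀ ω, (N ω).SymBlocks ι) →
      ∀ ε : ℝ, 2 * ε ≤ 1 →
      (∀ G : SimpleGraph V, ∑ ω with ¬ (N ω).CliqueOK enc dec k G, p ω ≤ ε) →
      (1 - 2 * ε) * ((r + 1 - k : ℕ) : ℝ) ^ k ≤
        ∑ ω, p ω * ((Fintype.card (Gt ω) : ℝ) *
          ((2 * Nat.log 5 (Fintype.card (Gt ω)) + 1 : ℕ) : ℝ) ^ k)) ∧
    (∀ (V : Type) [Fintype V], ∃ (Gt : Type) (_ : Fintype Gt) (N : Net (Sym2 V) Bool Unit Gt),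
      (∀ π : Equiv.Perm V, ∃ φ, N.IsAut (sym2Perm π) 1 φ) ∧
      (∀ G : SimpleGraph V, N.CliqueOK id id k G) ∧
      Fintype.card Gt ≤ Fintype.card V ^ k + Fintype.card V ^ 2 + 1) := by
  constructor
  · intro V K _ enc dec r ι Ω _ p hp hp1 Gt _ N hsym ε hε herr
    apply choose_to_pow p hp (fun ω => Fintype.card (Gt ω))
      (fun ω => 2 * Nat.log 5 (Fintype.card (Gt ω)) + 1) k r _ (by linarith)
    exact clique_lower hk (by rw [Fintype.card_fin]) enc dec ι p hp hp1 Gt N hsym ε
      (fun G => by convert herr G)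
  · intro V _
    exact ⟨CG V k, inferInstance, cliqueNet V k, fun π => ⟨_, cliqueNet_sym V k π⟩,
      cliqueNet_ok V k, card_CG V k⟩

end Pool.Agent.Results.MP_678664_lc.LocalSymmetry
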