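import Mathlib
import Pool.Agent.H520R2.NMDefs
import Pool.Agent.H559R9.Main

/-!
# `k`-clique needs `n ^ ((1 - γ / 2 - o(1)) * k)` gates in randomised circuits with `γ * log₂ n`
NOT gates

Consider circuits of AND and OR gates of fan-in two and of arbitrary further gates, the `i`-th of
them with `w i` input wires (for example NOT gates, with `w i = 1`), which get a graph with `n`
vertices as input.  Let `k ≥ 3`, `0 ≤ γ`, `0 < θ < 1 - γ / 2`.  There is `α > 0` such that for all
large `n`:

* there is a distribution on graphs with `n` vertices (uniform on a finite family) such that every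
  circuit with `∏ (w i + 1) ≤ n ^ γ` and `(number of AND and OR gates) + ∑ w i < n ^ (θ * k)`
  decides correctly whether the random graph has a `k`-clique with probability less than
  `1 / 2 + n ^ (-α)`;
* for every randomised circuit of this kind (a probability distribution `w` on a finite set `Ω` of
  such circuits) there is a graph for which its answer is correct with probability less than
  `1 / 2 + n ^ (-α)`.

So randomised circuits with at most `γ * log₂ n` NOT gates and any error below `1 / 2 - n ^ (-α)`
need `n ^ ((1 - γ / 2 - o(1)) * k)` gates, for every `γ < 2`.  In particular they do not solve the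
`k`-clique problem in size `f k * n ^ o(k)`.  On the other hand `log₂ (n ^ 2 + 1) + 1 =
2 * log₂ n + O(1)` NOT gates are as good as any number of NOT gates, up to a polynomial in `n` that
does not depend on `k`.  For `γ < 0.4` the bound exceeds the `n ^ (ω * k / 3)` gates which suffice
with `2 * log₂ n + O(1)` NOT gates.

Proof. Take a Ruzsa-Szemerédi (Behrend) type system of `(n / q) ^ (2 - o(1))` blocks on `n / q`
points such that every triangle of the union is in a block, and blow up every point to `q` vertices:
a graph contained in the union of the blocks has a `k`-clique if and only if its restriction to some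
block has one, and a block has `q ^ k` potential `k`-cliques, `q = n ^ (1 - γ / 2 - o(1))`.  In one
block, an average-case version of Razborov's approximation method (with spread-type sunflowers)
shows that monotone circuits with `q ^ (k - o(1))` gates cannot tell a random clique from a random
`(k - 1)`-partite graph, and random restrictions to one block (the hard distribution of
`Pool.Agent.H560R2`) eliminate the non-monotone gates.
-/

namespace Pool.Agent.Results.MP_678664_lc.RandomizedNotGates

open Filter Finset Pool.Agent.H520R2.NM

open Classical in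
theorem result (k : ℕ) (hk : 3 ≤ k) (γ θ : ℝ) (hγ : 0 ≤ γ) (hθ : 0 < θ) (h : θ + γ / 2 < 1) :
    ∃ α : ℝ, 0 < α ∧ ∀ᶠ n : ℕ in atTop,
      (∃ (Λ : Type) (_ : Fintype Λ) (_ : Nonempty Λ) (x : Λ → Sym2 (Fin n) → Bool),
        ∀ (N : ℕ) (C : Circuit (Sym2 (Fin n)) N) (out : Wire (Sym2 (Fin n)) N),
          (((C.fanins.map (· + 1)).prod : ℕ) : ℝ) ≤ (n : ℝ) ^ γ →
          ((C.size + C.fanins.sum : ℕ) : ℝ) < (n : ℝ) ^ (θ * k) →
          ((univ.filter (fun l => (out.eval (x l) (C.vals (x l)) = true ↔
            ¬ (SimpleGraph.fromEdgeSet {e | x l e = true}).CliqueFree k))).card : ℝ) <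
            (1 / 2 + (n : ℝ) ^ (-α)) * Fintype.card Λ) ∧
      ∀ (Ω : Type) [Fintype Ω] (w : Ω → ℝ), (∀ r, 0 ≤ w r) → ∑ r, w r = 1 →
        ∀ (N : Ω → ℕ) (C : ∀ r, Circuit (Sym2 (Fin n)) (N r))
          (out : ∀ r, Wire (Sym2 (Fin n)) (N r)),
          (∀ r, ((((C r).fanins.map (· + 1)).prod : ℕ) : ℝ) ≤ (n : ℝ) ^ γ) →
          (∀ r, (((C r).size + (C r).fanins.sum : ℕ) : ℝ) < (n : ℝ) ^ (θ * k)) →
          ∃ x : Sym2 (Fin n) → Bool,
            ∑ r ∈ univ.filter (fun r => ((out r).eval x ((C r).vals x) = true ↔
              ¬ (SimpleGraph.fromEdgeSet {e | x e = true}).CliqueFree k)), w r <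
              1 / 2 + (n : ℝ) ^ (-α) :=
  Pool.Agent.H559R9.clique_rand k hk γ θ hγ hθ h

end Pool.Agent.Results.MP_678664_lc.RandomizedNotGates
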